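import Pool.Agent.helper36.MP.SpecC

set_option autoImplicit false

open Complex Metric Set Filter Topology MeasureTheory

noncomputable section

namespace MPS

open Classical in
theorem CNT (hTP : TP_stmt) (hEND : END_stmt) (hPRONG : PRONG_stmt) : CNT_stmt := by
  intro k _ b g ψ d hb hg hPN hd
  by_contra hcon
  push Not at hcon
  choose F hF hF5 using hcon
  have hk : 0 < k := Nat.pos_of_ne_zero (NeZero.ne k)
  obtain ⟨-, hPb, hPdeg⟩ := hTP k b g hb
  obtain ⟨hdeg, -⟩ := hPdeg hg
  have hP0 : Ppoly b g ≠ 0 := by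
    intro h0
    apply hPb 0
    rw [h0, Polynomial.eval_zero]
  -- the ends
  have hE : ∀ p : ZMod k × ℝ, ∃ ζ : ℂ, p.2 ∈ F p.1 →
      ((Ppoly b g).eval ζ = 0 ∧ Ends b g (ψ p.1) p.2 ζ) := by
    intro p
    by_cases hp : p.2 ∈ F p.1
    · obtain ⟨ζ, h1, h2⟩ := hEND k b g p.1 (ψ p.1) d p.2 hb hg (hPN p.1) hd (hF p.1 p.2 hp).2.2
      exact ⟨ζ, fun _ => ⟨h1, h2⟩⟩
    · exact ⟨0, fun h => absurd h hp⟩
  choose E hE' using hE
  let FF : Finset (ZMod k × ℝ) := Finset.univ.biUnion (fun i => (F i).image (fun y => (i, y)))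
  have hmem : ∀ p ∈ FF, p.2 ∈ F p.1 := by
    intro p hp
    rw [Finset.mem_biUnion] at hp
    obtain ⟨i, -, hi⟩ := hp
    rw [Finset.mem_image] at hi
    obtain ⟨y, hy, rfl⟩ := hi
    exact hy
  have hcard : 6 * k ≤ FF.card := by
    have h1 : FF.card = ∑ i : ZMod k, ((F i).image (fun y => (i, y))).card := by
      apply Finset.card_biUnion
      intro i _ j _ hij
      show Disjoint ((F i).image (fun y => (i, y))) ((F j).image (fun y => (j, y)))
      rw [Finset.disjoint_left]
      intro p hp hq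
      rw [Finset.mem_image] at hp hq
      obtain ⟨y, -, rfl⟩ := hp
      obtain ⟨z, -, hz⟩ := hq
      exact hij (congrArg Prod.fst hz).symm
    have h2 : ∀ i : ZMod k, 6 ≤ ((F i).image (fun y => (i, y))).card := by
      intro i
      rw [Finset.card_image_of_injective _ (fun a c h => congrArg Prod.snd h)]
      exact hF5 i
    rw [h1]
    calc 6 * k = ∑ _i : ZMod k, 6 := by
          rw [Finset.sum_const, Finset.card_univ, ZMod.card, smul_eq_mul, mul_comm]
      _ ≤ _ := Finset.sum_le_sum (fun i _ => h2 i)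
  have hmaps : ∀ p ∈ FF, E p ∈ (Ppoly b g).roots.toFinset := by
    intro p hp
    rw [Multiset.mem_toFinset, Polynomial.mem_roots hP0]
    exact (hE' p (hmem p hp)).1
  have hfib := Finset.card_eq_sum_card_fiberwise hmaps
  have hle : ∀ ζ ∈ (Ppoly b g).roots.toFinset, (FF.filter (fun p => E p = ζ)).card ≤
      3 * (Ppoly b g).roots.count ζ := by
    intro ζ hζ
    rw [Multiset.mem_toFinset] at hζ
    have h0 : (Ppoly b g).eval ζ = 0 := (Polynomial.mem_roots hP0).1 hζ
    have h1 := hPRONG k b g ψ ζ (FF.filter (fun p => E p = ζ)) hb hPN h0 (by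
      intro p hp
      rw [Finset.mem_filter] at hp
      obtain ⟨hp1, hp2⟩ := hp
      have h3 := hmem p hp1
      have h4 := hF p.1 p.2 h3
      refine ⟨h4.1, h4.2.1, ?_⟩
      rw [← hp2]
      exact (hE' p h3).2)
    have h2 : 1 ≤ (Ppoly b g).roots.count ζ := Multiset.one_le_count_iff_mem.2 hζ
    rw [Polynomial.count_roots] at h2 ⊢
    omega
  have hsum : FF.card ≤ 3 * (2 * k - 1) := by
    rw [hfib]
    refine le_trans (Finset.sum_le_sum hle) ?_
    rw [← Finset.mul_sum, Multiset.toFinset_sum_count_eq]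
    have := Polynomial.card_roots' (Ppoly b g)
    rw [hdeg] at this
    exact Nat.mul_le_mul_left 3 this
  omega

end MPS
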