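import Pool.Agent.helper36.MP.SpecQ

set_option autoImplicit false

open Complex Metric Set Filter Topology MeasureTheory

noncomputable section

namespace MPS

theorem EV2A_T {n : ℕ} {c : ℂ} {y ρ₁ : ℝ} {χ : ℂ → ℂ} {G1 : ℕ → ℂ → ℂ} {ps : ℕ} {T : ℕ → ℝ}
    {G : ℕ → ℂ → ℂ} {Q : ℕ} (h : Sys2 n c y ρ₁ χ G1 ps T G Q) : ∀ q ≤ Q, T Q ≤ T q := by
  intro q hq
  obtain ⟨m, rfl⟩ := Nat.exists_eq_add_of_le hq
  have key : ∀ m', q + m' ≤ q + m → T (q + m') ≤ T q := by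
    intro m'
    induction m' with
    | zero => intro _; exact le_refl _
    | succ m' ih =>
      intro hm
      have h1 := h.anti (q + m') (by omega)
      have h2 := ih (by omega)
      exact le_trans h1 h2
  exact key m le_rfl

theorem EV2A_geom (w₀ wc : ℂ) (d : ℝ) (hd : 0 < d) (hdist : d ≤ ‖wc - w₀‖) :
    ∃ w₁ : ℂ, ‖w₁ - wc‖ = d ∧ w₁ ∈ segment ℝ w₀ wc ∧
      ∀ p ∈ segment ℝ w₀ w₁, d ≤ ‖p - wc‖ ∧ p ∈ segment ℝ w₀ wc := by
  have hL : 0 < ‖wc - w₀‖ := lt_of_lt_of_le hd hdist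
  have hLe : ‖w₀ - wc‖ = ‖wc - w₀‖ := norm_sub_rev _ _
  set L := ‖wc - w₀‖ with hLdef
  have ht0 : 0 < d / L := div_pos hd hL
  have ht1 : d / L ≤ 1 := (div_le_one hL).2 hdist
  have htL : d / L * L = d := div_mul_cancel₀ d hL.ne'
  set t := d / L with htdef
  have hw1 : wc + (t : ℂ) * (w₀ - wc) ∈ segment ℝ w₀ wc := by
    refine ⟨t, 1 - t, ht0.le, by linarith, by ring, ?_⟩
    simp only [Complex.real_smul]
    push_cast
    ring
  refine ⟨wc + (t : ℂ) * (w₀ - wc), ?_, hw1, ?_⟩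
  · rw [add_sub_cancel_left, norm_mul, hLe, Complex.norm_real, Real.norm_eq_abs, abs_of_pos ht0, htL]
  · rintro p ⟨a, b, ha, hb, hab, rfl⟩
    have hab' : (a : ℂ) + (b : ℂ) = 1 := by
      exact_mod_cast hab
    constructor
    · have e : a • w₀ + b • (wc + (t : ℂ) * (w₀ - wc)) - wc = ((a + b * t : ℝ) : ℂ) * (w₀ - wc) := by
        simp only [Complex.real_smul]
        push_cast
        linear_combination wc * hab'
      rw [e, norm_mul, hLe, Complex.norm_real, Real.norm_eq_abs, abs_of_nonneg (by positivity)]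
      have : a * t ≤ a := by nlinarith
      calc d = t * L := htL.symm
        _ = (a + b) * t * L := by rw [hab]; ring
        _ ≤ (a + b * t) * L := by
            apply mul_le_mul_of_nonneg_right _ hL.le
            nlinarith
    · exact (convex_segment w₀ wc) (left_mem_segment ℝ w₀ wc) hw1 ha hb hab

theorem EV2A_ofReal_sum (m : ℕ) (f : ℕ → ℝ) :
    ENNReal.ofReal (∑ q ∈ Finset.range m, f q) ≤ ∑ q ∈ Finset.range m, ENNReal.ofReal (f q) := by
  induction m with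
  | zero => simp
  | succ m ih =>
    rw [Finset.sum_range_succ, Finset.sum_range_succ]
    exact le_trans ENNReal.ofReal_add_le (add_le_add ih le_rfl)

theorem EV2A_int (m : ℕ) (F : ℕ → ℂ → ℝ) (f : ℂ → ℝ) (N : Set ℂ) (B : Set ℂ)
    (hB : MeasurableSet B) (hBN : B ⊆ N)
    (hF : ∀ q ∈ Finset.range m,
      AEMeasurable (fun w => ENNReal.ofReal (F q w)) (volume.restrict N))
    (hf : ∀ w ∈ B, f w ≤ ∑ q ∈ Finset.range m, F q w) (C : ENNReal)
    (hC : ∑ q ∈ Finset.range m, ∫⁻ w in N, ENNReal.ofReal (F q w) ≤ C) :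
    ∫⁻ w in B, ENNReal.ofReal (f w) ≤ C := by
  calc ∫⁻ w in B, ENNReal.ofReal (f w)
      ≤ ∫⁻ w in B, ∑ q ∈ Finset.range m, ENNReal.ofReal (F q w) := by
        apply setLIntegral_mono' hB
        intro w hw
        exact le_trans (ENNReal.ofReal_le_ofReal (hf w hw)) (EV2A_ofReal_sum m (fun q => F q w))
    _ ≤ ∫⁻ w in N, ∑ q ∈ Finset.range m, ENNReal.ofReal (F q w) := lintegral_mono_set hBN
    _ = ∑ q ∈ Finset.range m, ∫⁻ w in N, ENNReal.ofReal (F q w) := lintegral_finsetSum' _ hF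
    _ ≤ C := hC

theorem EV2A_meas (hMI : MI_stmt) (n k : ℕ) [NeZero k] (c : ℂ) (b g : ZMod k → ℂ) (G : ℂ → ℂ)
    (N : Set ℂ) (hN : IsOpen N) (hG : DifferentiableOn ℂ G N) :
    AEMeasurable (fun w => ENNReal.ofReal (dens n c b g G w)) (volume.restrict N) ∧
    AEMeasurable (fun w => ENNReal.ofReal (‖er n c b g (G w)‖ * ‖deriv G w‖ ^ 2))
      (volume.restrict N) := by
  obtain ⟨-, her, hDf, -⟩ := hMI.1 n k c b g
  have hGm : AEMeasurable G (volume.restrict N) := hG.continuousOn.aemeasurable hN.measurableSet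
  have hd : Measurable (deriv G) := measurable_deriv G
  have h1 : AEMeasurable (fun w => er n c b g (G w)) (volume.restrict N) :=
    her.comp_aemeasurable hGm
  have h2 : AEMeasurable (fun w => Df n c b g (G w)) (volume.restrict N) :=
    hDf.comp_aemeasurable hGm
  have h3 : AEMeasurable (fun w => ‖deriv G w‖ ^ 2) (volume.restrict N) :=
    (hd.norm.pow_const 2).aemeasurable
  constructor
  · exact ((h2.add (h1.norm.const_mul 2)).mul h3).ennreal_ofReal
  · exact (h1.norm.mul h3).ennreal_ofReal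

theorem EV2A_isNat {k : ℕ} [NeZero k] {b g : ZMod k → ℂ} {χ : ℂ → ℂ} {Ω N : Set ℂ}
    (h : IsNat b g χ Ω) (hN : N ⊆ Ω) : IsNat b g χ N :=
  ⟨h.diff.mono hN, fun w hw => h.av w (hN hw), fun w hw => h.eq w (hN hw)⟩

/-- the extended system. -/
theorem EV2A_ext {n k : ℕ} [NeZero k] {c : ℂ} {b g : ZMod k → ℂ} {G : ℕ → ℂ → ℂ} {Ω N : Set ℂ}
    {Q : ℕ} (h : LevSys n c b g G Ω Q) (hN : N ⊆ Ω) (g' : ℂ → ℂ) (hg : DifferentiableOn ℂ g' N)
    (hrel : ∀ w ∈ N, g' w ^ n + c = G Q w ∧ g' w ≠ 0) :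
    LevSys n c b g (Function.update G (Q + 1) g') N (Q + 1) := by
  refine ⟨?_, ?_, ?_⟩
  · rw [Function.update_of_ne (by omega)]
    exact EV2A_isNat h.nat0 hN
  · intro q hq
    by_cases hq1 : q = Q + 1
    · subst hq1
      rw [Function.update_self]
      exact hg
    · rw [Function.update_of_ne hq1]
      exact (h.diff q (by omega)).mono hN
  · intro q hq w hw
    by_cases hq1 : q = Q
    · subst hq1
      rw [Function.update_self, Function.update_of_ne (by omega)]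
      exact hrel w hw
    · rw [Function.update_of_ne (by omega), Function.update_of_ne (by omega)]
      exact h.rel q (by omega) w (hN hw)

theorem EV2A_bet {n k : ℕ} [NeZero k] (b g : ZMod k → ℂ) {G G' : ℕ → ℂ → ℂ} {q : ℕ} {w : ℂ}
    (h : G q =ᶠ[𝓝 w] G' q) (j : ℕ) : bet n b g G q j w = bet n b g G' q j w := by
  unfold bet
  rw [h.deriv_eq, h.eq_of_nhds]

theorem EV2A_lev_nonneg {n k : ℕ} [NeZero k] (c : ℂ) (b g : ZMod k → ℂ) (G : ℕ → ℂ → ℂ) (q : ℕ)
    (w : ℂ) : 0 ≤ lev n c b g G q w := by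
  unfold lev
  positivity

theorem EV2A_Icc (Q : ℕ) (f : ℕ → ℝ) :
    ∑ q ∈ Finset.Icc 1 (Q + 1), f q = ∑ q ∈ Finset.range (Q + 1), f (q + 1) := by
  rw [Finset.range_eq_Ico, Finset.sum_Ico_add' f 0 (Q + 1) 1]
  rfl

theorem EV2A_E {n k : ℕ} [NeZero k] {c : ℂ} {b g : ZMod k → ℂ} {ψ : ZMod k → ℂ → ℂ} {R ε : ℝ}
    (h : SU n k c b g ψ R ε) : 0 ≤ ε ∧
      2 * Real.pi * Real.log ‖rho n b‖ + 3 * ∫ z in ball (0 : ℂ) R, ‖er n c b g z‖ ≤ ε ∧
      ∫ z in ball (0 : ℂ) R, ‖er n c b g z‖ ≤ ε / 4 := by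
  have h1 := h.hE
  have h2 : 0 ≤ ∫ z in ball (0 : ℂ) R, ‖er n c b g z‖ := integral_nonneg (fun z => norm_nonneg _)
  have h3 : 0 ≤ Real.log ‖rho n b‖ := Real.log_nonneg h.rho1.le
  have h4 : 0 ≤ 2 * Real.pi * Real.log ‖rho n b‖ := by positivity
  refine ⟨by linarith, by linarith, by linarith⟩

/-- the final numerical estimate. -/
theorem EV2A_num (ε ρ B E : ℝ) (hε : 0 ≤ ε) (hρ : 0 < ρ)
    (hB : B ≤ 4 ^ 160 * (97 * ε / ρ ^ 2 + 2 * (2 * ε) / (Real.pi * (ρ / 64) ^ 2)))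
    (hE : Real.pi * (ρ / 64) ^ 2 * E ≤ ε) : B + E ≤ 4 ^ 167 * ε / ρ ^ 2 := by
  have hpi : 3 < Real.pi := Real.pi_gt_three
  have hρ2 : 0 < ρ ^ 2 := by positivity
  have hx : 0 ≤ ε / ρ ^ 2 := by positivity
  set x := ε / ρ ^ 2 with hxdef
  have e1 : 97 * ε / ρ ^ 2 = 97 * x := by rw [hxdef]; ring
  have e2 : 2 * (2 * ε) / (Real.pi * (ρ / 64) ^ 2) ≤ 6000 * x := by
    have : 2 * (2 * ε) / (Real.pi * (ρ / 64) ^ 2) = 16384 / Real.pi * x := by
      rw [hxdef]
      field_simp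
      ring
    rw [this]
    apply mul_le_mul_of_nonneg_right _ hx
    rw [div_le_iff₀ (by positivity)]
    nlinarith
  have e3 : E ≤ 1400 * x := by
    have h1 : E ≤ ε / (Real.pi * (ρ / 64) ^ 2) := by
      rw [le_div_iff₀ (by positivity)]
      linarith
    have h2 : ε / (Real.pi * (ρ / 64) ^ 2) = 4096 / Real.pi * x := by
      rw [hxdef]
      field_simp
      ring
    rw [h2] at h1
    refine le_trans h1 (mul_le_mul_of_nonneg_right ?_ hx)
    rw [div_le_iff₀ (by positivity)]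
    nlinarith
  have e4 : 4 ^ 167 * ε / ρ ^ 2 = 4 ^ 167 * x := by rw [hxdef]; ring
  rw [e4]
  rw [e1] at hB
  have e5 : B ≤ 4 ^ 160 * (6097 * x) := by
    refine le_trans hB (mul_le_mul_of_nonneg_left ?_ (by positivity))
    linarith
  have e6 : (4 : ℝ) ^ 160 * (6097 * x) + 1400 * x ≤ 4 ^ 167 * x := by
    have : (4 : ℝ) ^ 160 * 6097 + 1400 ≤ 4 ^ 167 := by norm_num
    nlinarith
  linarith

theorem EV2A_w0 (y ρ₁ : ℝ) : ((y : ℂ) * I - ρ₁ / 4).re = -(ρ₁ / 4) := by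
  simp
  try norm_num

theorem EV2A_wx (y ρ₁ : ℝ) (hρ : 0 < ρ₁) : ‖((y : ℂ) * I - ρ₁ / 4) - (y : ℂ) * I‖ = ρ₁ / 4 := by
  have : ((y : ℂ) * I - ρ₁ / 4) - (y : ℂ) * I = ((-(ρ₁ / 4) : ℝ) : ℂ) := by
    push_cast
    ring
  rw [this, Complex.norm_real, Real.norm_eq_abs, abs_neg, abs_of_pos (by positivity)]

theorem EV2A_exp {a : ℝ} {w : ℂ} (hw : w ∈ HP a) : Complex.exp w ∈ ball (0 : ℂ) (Real.exp (-a)) := by
  rw [mem_ball_zero_iff, Complex.norm_exp]
  exact Real.exp_lt_exp.2 hw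

theorem EV2A_HPopen (a : ℝ) : IsOpen (HP a) := isOpen_lt Complex.continuous_re continuous_const

theorem EV2A_HPconv (a : ℝ) : Convex ℝ (HP a) := by
  intro p hp q hq s t hs ht hst
  have h1 : p.re < -a := hp
  have h2 : q.re < -a := hq
  show (s • p + t • q).re < -a
  simp only [Complex.add_re, Complex.real_smul, Complex.mul_re, Complex.ofReal_re,
    Complex.ofReal_im, zero_mul, sub_zero]
  rcases hs.eq_or_lt with h0 | h0
  · subst h0
    have : t = 1 := by linarith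
    subst this
    linarith
  · have h3 : s * p.re < s * (-a) := mul_lt_mul_of_pos_left h1 h0
    have h4 : t * q.re ≤ t * (-a) := mul_le_mul_of_nonneg_left h2.le ht
    have h5 : s * (-a) + t * (-a) = -a := by rw [← add_mul, hst, one_mul]
    linarith

/-- agreement of the new level with the level of Phase 1. -/
theorem EV2A_agree (hLRU : LRU_stmt) {n : ℕ} {c : ℂ} {G1 : ℕ → ℂ → ℂ} {G : ℕ → ℂ → ℂ} {Q : ℕ}
    {N : Set ℂ} {w₀ : ℂ} {δ : ℝ} (g' : ℂ → ℂ) (hn : 1 ≤ n) (hNo : IsOpen N) (hNc : Convex ℝ N)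
    (hw0 : w₀ ∈ N) (hw0' : w₀ ∈ HP δ) (hg : DifferentiableOn ℂ g' N)
    (hg1 : DifferentiableOn ℂ (G1 (Q + 1)) (ball 0 (Real.exp (-δ))))
    (hv : g' w₀ = GW G1 (Q + 1) w₀)
    (hr : ∀ w ∈ N, g' w ^ n + c = G Q w)
    (hr1 : ∀ u ∈ ball (0 : ℂ) (Real.exp (-δ)), G1 (Q + 1) u ^ n + c = G1 Q u ∧ G1 (Q + 1) u ≠ 0)
    (hag : ∀ w ∈ N, w ∈ HP δ → G Q w = GW G1 Q w) :
    ∀ w ∈ N, w ∈ HP δ → g' w = GW G1 (Q + 1) w := by
  intro w hw hw'
  have hconv : Convex ℝ (N ∩ HP δ) := hNc.inter (EV2A_HPconv δ)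
  have hE : EqOn g' (GW G1 (Q + 1)) (N ∩ HP δ) := by
    apply hLRU n (N ∩ HP δ) g' (GW G1 (Q + 1)) w₀ hn hconv.isPreconnected
    · exact hg.continuousOn.mono inter_subset_left
    · have : ContinuousOn (G1 (Q + 1)) (ball 0 (Real.exp (-δ))) := hg1.continuousOn
      exact this.comp Complex.continuous_exp.continuousOn (fun z hz => EV2A_exp hz.2)
    · intro z hz
      have h1 := hr z hz.1
      have h2 := (hr1 _ (EV2A_exp hz.2)).1
      have h3 := hag z hz.1 hz.2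
      unfold GW at h3 ⊢
      have h4 : g' z ^ n + c = G1 (Q + 1) (Complex.exp z) ^ n + c := by
        rw [h1, h2, h3]
      exact add_right_cancel h4
    · intro z hz
      exact (hr1 _ (EV2A_exp hz.2)).2
    · exact ⟨hw0, hw0'⟩
    · exact hv
  exact hE ⟨hw, hw'⟩

theorem EV2A (hP2H : P2H_stmt) (hP2A : P2A_stmt) (hLR : LR_stmt) (hLRU : LRU_stmt)
    (hLEA : LEA_stmt) (hLV : LV_stmt) (hMI : MI_stmt) (hMA : MA_stmt) (hHSM : HSM_stmt)
    (hHCH : HCH_stmt) : EV2A_stmt := by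
  intro n k _ c b g ψ R ε y ρ₁ χ G1 ps T G Q h hQk r wc h3 hrT hdisj hwc hGc
  have su2 := h.su2
  have sys := h.sys
  have su := su2.su
  have r0 : 0 < ρ₁ := su2.r0
  have hn2 : 2 ≤ n := su.hn
  obtain ⟨hε, hE3, hE4⟩ := EV2A_E su
  obtain ⟨-, hsum0, -, hcv⟩ := hP2H n k c b g ψ R ε y ρ₁ χ G1 ps su2
  obtain ⟨hagr, hinj, hmaps, hlev, -, hmult, -⟩ := hP2A n k c b g ψ R ε y ρ₁ χ G1 ps T G Q h
  have hTQ := EV2A_T sys
  have hr1 : r ≤ ρ₁ := le_trans hrT (le_trans (hTQ 0 (Nat.zero_le _)) sys.t0)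
  set x : ℂ := (y : ℂ) * I with hx
  set w₀ : ℂ := x - ρ₁ / 4 with hw₀
  have hw0re : w₀.re = -(ρ₁ / 4) := EV2A_w0 y ρ₁
  have hw0x : ‖w₀ - x‖ = ρ₁ / 4 := EV2A_wx y ρ₁ r0
  have hw0HP : w₀ ∈ HP (3 * (ρ₁ / 64)) := by
    show w₀.re < -(3 * (ρ₁ / 64))
    rw [hw0re]
    linarith
  have hwcT : wc ∈ ball x (T Q) := by
    rw [mem_ball_iff_norm]
    linarith
  have hwcre : -(3 * (ρ₁ / 64)) ≤ wc.re := by
    by_contra hlt
    push Not at hlt
    have h1 := hagr Q le_rfl wc hwcT hlt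
    exact hcv Q hQk wc hlt (by rw [← h1]; exact hGc)
  have hdist : ρ₁ / 64 ≤ ‖wc - w₀‖ := by
    have h1 : (wc - w₀).re ≤ ‖wc - w₀‖ := Complex.re_le_norm _
    rw [Complex.sub_re, hw0re] at h1
    linarith
  obtain ⟨w₁, hw1c, hw1seg, hseg⟩ := EV2A_geom w₀ wc (ρ₁ / 64) (by positivity) hdist
  -- the neighbourhood
  have hsegball : segment ℝ w₀ wc ⊆ closedBall x (r - ρ₁ / 32) := by
    apply (convex_closedBall x (r - ρ₁ / 32)).segment_subset
    · rw [mem_closedBall_iff_norm, hw0x]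
      linarith
    · rw [mem_closedBall_iff_norm]
      exact hwc
  set N : Set ℂ := Metric.thickening (ρ₁ / 64) (segment ℝ w₀ w₁) with hN
  have hNo : IsOpen N := isOpen_thickening
  have hNc : Convex ℝ N := (convex_segment w₀ w₁).thickening _
  have hballN : ∀ p ∈ segment ℝ w₀ w₁, ball p (ρ₁ / 64) ⊆ N := fun p hp =>
    ball_subset_thickening hp _
  have hw0N : w₀ ∈ N := hballN w₀ (left_mem_segment ℝ w₀ w₁) (mem_ball_self (by positivity))
  have hw1N : w₁ ∈ N := hballN w₁ (right_mem_segment ℝ w₀ w₁) (mem_ball_self (by positivity))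
  have hNr : N ⊆ ball x r := by
    intro w hw
    obtain ⟨p, hp, hpw⟩ := mem_thickening_iff.1 hw
    have h1 := hsegball (hseg p hp).2
    rw [mem_closedBall] at h1
    rw [mem_ball]
    have h2 := dist_triangle w p x
    linarith
  have hNT : ∀ q ≤ Q, N ⊆ ball x (T q) := fun q hq =>
    hNr.trans (ball_subset_ball (le_trans hrT (hTQ q hq)))
  have hwcN : wc ∉ N := by
    intro hw
    obtain ⟨p, hp, hpw⟩ := mem_thickening_iff.1 hw
    have h1 := (hseg p hp).1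
    rw [dist_comm, dist_eq_norm] at hpw
    linarith
  have hcN : ∀ w ∈ N, G Q w - c ≠ 0 := by
    intro w hw h0
    have h1 : G Q w = G Q wc := by rw [hGc]; exact sub_eq_zero.1 h0
    have h2 := hinj Q le_rfl (hNT Q le_rfl hw) hwcT h1
    exact hwcN (h2 ▸ hw)
  have hlevQ := hlev Q le_rfl
  have hGQd : DifferentiableOn ℂ (G Q) N := (hlevQ.diff Q le_rfl).mono (hNT Q le_rfl)
  have hs1 := su2.s1
  have hrel1 : ∀ u ∈ ball (0 : ℂ) (Real.exp (-(3 * (ρ₁ / 64)))),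
      G1 (Q + 1) u ^ n + c = G1 Q u ∧ G1 (Q + 1) u ≠ 0 := hs1.rel Q hQk
  have hval : G Q w₀ = GW G1 Q w₀ := sys.val Q le_rfl
  have hv0 : (GW G1 (Q + 1) w₀) ^ n = G Q w₀ - c := by
    rw [hval]
    have h1 := (hrel1 _ (EV2A_exp hw0HP)).1
    unfold GW
    rw [← h1]
    ring
  obtain ⟨g', hg'd, hg'0, hg'r⟩ := hLR n N (fun w => G Q w - c) w₀ (GW G1 (Q + 1) w₀)
    (by omega) hNo hNc (hGQd.sub_const c) hcN hw0N hv0
  have hg'rel : ∀ w ∈ N, g' w ^ n + c = G Q w ∧ g' w ≠ 0 := by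
    intro w hw
    have h1 := hg'r w hw
    refine ⟨by rw [h1]; ring, ?_⟩
    intro h0
    rw [h0, zero_pow (by omega)] at h1
    exact hcN w hw h1.symm
  have hLS : LevSys n c b g (Function.update G (Q + 1) g') N (Q + 1) :=
    EV2A_ext hlevQ (hNT Q le_rfl) g' hg'd hg'rel
  refine ⟨w₁, N, g', hw1c, hNo, hw1N, hNr, hLS, ?_⟩
  set G' : ℕ → ℂ → ℂ := Function.update G (Q + 1) g' with hG'
  have hG'q : ∀ q < Q + 1, G' q = G q := fun q hq => by
    rw [hG', Function.update_of_ne (by omega)]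
  have hG'Q : G' (Q + 1) = g' := by rw [hG', Function.update_self]
  -- the mass bounds
  have hMA' := hMA n k c b g R hn2 su.cyc su.hc su.hR su.rho1 (Q + 1) 2 (fun _ => N) G'
    (by
      intro q hq
      rw [hG'q q hq]
      refine ⟨hNo, (hlevQ.diff q (by omega)).mono (hNT Q le_rfl),
        (hinj q (by omega)).mono (hNT q (by omega)), ?_⟩
      exact (hmaps q (by omega)).mono_left (hNT q (by omega)))
    (by
      intro z F hF
      apply hmult r hrT hdisj z F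
      intro q hq
      obtain ⟨h1, h2⟩ := hF q hq
      rw [hG'q q h1] at h2
      exact ⟨by omega, image_mono hNr h2⟩)
  obtain ⟨hMA1, hMA2⟩ := hMA'
  have hMA1' : ∑ q ∈ Finset.range (Q + 1), ∫⁻ w in N, ENNReal.ofReal (dens n c b g (G' q) w) ≤
      ENNReal.ofReal (2 * ε) := by
    refine le_trans hMA1 ?_
    rw [ENNReal.ofReal_mul (by norm_num : (0 : ℝ) ≤ 2)]
    rw [show ENNReal.ofReal (2 : ℝ) = ((2 : ℕ) : ENNReal) by norm_num]
    exact mul_le_mul_right (ENNReal.ofReal_le_ofReal hE3) _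
  have hMA2' : ∑ q ∈ Finset.range (Q + 1), ∫⁻ w in N,
      ENNReal.ofReal (‖er n c b g (G' q w)‖ * ‖deriv (G' q) w‖ ^ 2) ≤ ENNReal.ofReal ε := by
    refine le_trans hMA2 ?_
    have h1 : ε = 2 * (ε / 2) := by ring
    rw [h1, ENNReal.ofReal_mul (by norm_num : (0 : ℝ) ≤ 2)]
    rw [show ENNReal.ofReal (2 : ℝ) = ((2 : ℕ) : ENNReal) by norm_num]
    exact mul_le_mul_right (ENNReal.ofReal_le_ofReal (by linarith)) _
  have hmeas : ∀ q ∈ Finset.range (Q + 1), AEMeasurable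
      (fun w => ENNReal.ofReal (dens n c b g (G' q) w)) (volume.restrict N) ∧
      AEMeasurable (fun w => ENNReal.ofReal (‖er n c b g (G' q w)‖ * ‖deriv (G' q) w‖ ^ 2))
      (volume.restrict N) := by
    intro q hq
    exact EV2A_meas hMI n k c b g (G' q) N hNo (hLS.diff q (Finset.mem_range.1 hq).le)
  obtain ⟨-, -, -, -, hLEAb, hLEAe⟩ := hLEA n k c b g G' N (Q + 1) hn2 su.cyc hNo hLS
  obtain ⟨hLV1, -, -, -⟩ := hLV n k c b g G' N (Q + 1) hn2 su.cyc hNo hLS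
  -- the chain
  have hchain := hHCH (ℕ × ℕ) (Finset.range (Q + 1) ×ˢ Finset.Ico 1 n)
    (fun i => bet n b g G' (i.1 + 1) i.2) N w₀ w₁ (ρ₁ / 64) (2 * ε) 160 (by positivity)
    (by linarith) hNo
    (by
      intro i hi
      exact hLEAb i.1 (Finset.mem_range.1 (Finset.mem_product.1 hi).1) i.2)
    hballN
    (by
      intro p hp
      apply EV2A_int (Q + 1) (fun q w => dens n c b g (G' q) w) _ N (ball p (ρ₁ / 64))
        measurableSet_ball (hballN p hp) (fun q hq => (hmeas q hq).1) _ _ hMA1'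
      intro w hw
      have h1 := hLV1 (Q + 1) le_rfl w (hballN p hp hw)
      have h2 : (tau b g G' (Q + 1) w).re ≤ ‖tau b g G' (Q + 1) w‖ := Complex.re_le_norm _
      rw [Finset.sum_product]
      linarith)
    (by
      have h1 : ‖w₁ - w₀‖ ≤ ‖wc - w₀‖ := by
        rw [← dist_eq_norm, ← dist_eq_norm, dist_comm w₁, dist_comm wc]
        obtain ⟨a, b', ha, hb, hab, hw1'⟩ := hw1seg
        rw [← hw1', dist_eq_norm, dist_eq_norm]
        have : w₀ - (a • w₀ + b' • wc) = (b' : ℝ) • (w₀ - wc) := by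
          have hab' : a = 1 - b' := by linarith
          rw [hab']
          simp only [Complex.real_smul]
          push_cast
          ring
        rw [this, norm_smul, Real.norm_eq_abs, abs_of_nonneg hb]
        have : b' ≤ 1 := by linarith
        exact mul_le_of_le_one_left (norm_nonneg _) this
      have h2 : ‖wc - w₀‖ ≤ ‖wc - x‖ + ‖w₀ - x‖ := by
        have e : wc - w₀ = (wc - x) - (w₀ - x) := by ring
        rw [e]
        exact norm_sub_le _ _
      rw [hw0x] at h2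
      push_cast
      linarith)
  have hstart : ∑ i ∈ Finset.range (Q + 1) ×ˢ Finset.Ico 1 n, ‖bet n b g G' (i.1 + 1) i.2 w₀‖ ≤
      97 * ε / ρ₁ ^ 2 := by
    have hag1 := EV2A_agree hLRU (G := G) g' (by omega) hNo hNc hw0N hw0HP hg'd
      (hs1.diff (Q + 1) (by omega) (by omega)) hg'0 (fun w hw => (hg'rel w hw).1) hrel1
      (fun w hw hw' => hagr Q le_rfl w (hNT Q le_rfl hw) hw')
    have hev : ∀ q < Q + 1, G' (q + 1) =ᶠ[𝓝 w₀] GW G1 (q + 1) := by
      intro q hq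
      have hnb : N ∩ HP (3 * (ρ₁ / 64)) ∈ 𝓝 w₀ :=
        (hNo.inter (EV2A_HPopen _)).mem_nhds ⟨hw0N, hw0HP⟩
      refine Filter.eventuallyEq_of_mem hnb ?_
      intro w hw
      by_cases hq1 : q = Q
      · subst hq1
        rw [hG'Q]
        exact hag1 w hw.1 hw.2
      · rw [hG'q (q + 1) (by omega)]
        exact hagr (q + 1) (by omega) w (hNT (q + 1) (by omega) hw.1) hw.2
    rw [Finset.sum_product]
    calc ∑ q ∈ Finset.range (Q + 1), ∑ j ∈ Finset.Ico 1 n, ‖bet n b g G' (q + 1) j w₀‖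
        ≤ ∑ q ∈ Finset.range (Q + 1), lev n c b g (GW G1) (q + 1) w₀ := by
          apply Finset.sum_le_sum
          intro q hq
          have h1 : ∑ j ∈ Finset.Ico 1 n, ‖bet n b g G' (q + 1) j w₀‖ =
              ∑ j ∈ Finset.Ico 1 n, ‖bet n b g (GW G1) (q + 1) j w₀‖ := by
            apply Finset.sum_congr rfl
            intro j _
            rw [EV2A_bet b g (hev q (Finset.mem_range.1 hq)) j]
          rw [h1]
          unfold lev
          have := norm_nonneg (eef n c b g (GW G1) (q + 1 - 1) w₀)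
          linarith
      _ = ∑ q ∈ Finset.Icc 1 (Q + 1), lev n c b g (GW G1) q w₀ :=
          (EV2A_Icc Q (fun q => lev n c b g (GW G1) q w₀)).symm
      _ ≤ ∑ q ∈ Finset.Icc 1 k, lev n c b g (GW G1) q w₀ := by
          apply Finset.sum_le_sum_of_subset_of_nonneg
          · apply Finset.Icc_subset_Icc le_rfl
            omega
          · intro q _ _
            exact EV2A_lev_nonneg c b g (GW G1) q w₀
      _ ≤ 97 * ε / ρ₁ ^ 2 := hsum0
  -- the error terms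
  have herr := hHSM ℕ (Finset.range (Q + 1)) (fun q => eef n c b g G' q) w₁ (ρ₁ / 64)
    (by positivity)
    (by
      intro q hq
      exact (hLEAe q (Finset.mem_range.1 hq)).mono (hballN w₁ (right_mem_segment ℝ w₀ w₁)))
  have heefn : ∀ q w, ‖eef n c b g G' q w‖ = ‖er n c b g (G' q w)‖ * ‖deriv (G' q) w‖ ^ 2 := by
    intro q w
    unfold eef
    rw [norm_mul, norm_pow]
    ring
  have herr2 : Real.pi * (ρ₁ / 64) ^ 2 * ∑ q ∈ Finset.range (Q + 1), ‖eef n c b g G' q w₁‖ ≤ ε := by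
    have h1 := le_trans herr (EV2A_int (Q + 1)
      (fun q w => ‖er n c b g (G' q w)‖ * ‖deriv (G' q) w‖ ^ 2)
      (fun w => ∑ q ∈ Finset.range (Q + 1), ‖eef n c b g G' q w‖) N (ball w₁ (ρ₁ / 64))
      measurableSet_ball (hballN w₁ (right_mem_segment ℝ w₀ w₁)) (fun q hq => (hmeas q hq).2)
      (by
        intro w hw
        apply le_of_eq
        apply Finset.sum_congr rfl
        intro q _
        exact heefn q w) _ hMA2')
    exact (ENNReal.ofReal_le_ofReal_iff hε).1 h1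
  -- conclusion
  have hB : ∑ q ∈ Finset.range (Q + 1), ∑ j ∈ Finset.Ico 1 n, ‖bet n b g G' (q + 1) j w₁‖ ≤
      4 ^ 160 * (97 * ε / ρ₁ ^ 2 + 2 * (2 * ε) / (Real.pi * (ρ₁ / 64) ^ 2)) := by
    rw [← Finset.sum_product']
    refine le_trans hchain ?_
    apply mul_le_mul_of_nonneg_left _ (by positivity)
    linarith
  have hfin := EV2A_num ε ρ₁ _ _ hε r0 hB herr2
  have hsplit : ∑ q ∈ Finset.Icc 1 (Q + 1), lev n c b g G' q w₁ =
      ∑ q ∈ Finset.range (Q + 1), ∑ j ∈ Finset.Ico 1 n, ‖bet n b g G' (q + 1) j w₁‖ +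
      ∑ q ∈ Finset.range (Q + 1), ‖eef n c b g G' q w₁‖ := by
    rw [EV2A_Icc Q (fun q => lev n c b g G' q w₁), ← Finset.sum_add_distrib]
    rfl
  rw [hsplit]
  exact hfin

end MPS
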