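import Pool.Agent.helper36.MP.SpecP

set_option autoImplicit false

open Complex Metric Set Filter Topology MeasureTheory

noncomputable section

namespace MPS

theorem INC1_exp_mem (a : ℝ) (w : ℂ) (hw : w ∈ HP a) :
    Complex.exp w ∈ ball (0 : ℂ) (Real.exp (-a)) := by
  rw [mem_ball_zero_iff, Complex.norm_exp, Real.exp_lt_exp]
  exact hw

theorem INC1_deriv (P : ℂ → ℂ) (r : ℝ) (κ w : ℂ) (hP : DifferentiableOn ℂ P (ball 0 r))
    (hw : Complex.exp w ∈ ball (0 : ℂ) r) :
    HasDerivAt (fun w => w + κ + P (Complex.exp w))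
      (1 + Complex.exp w * deriv P (Complex.exp w)) w := by
  have h1 : HasDerivAt P (deriv P (Complex.exp w)) (Complex.exp w) :=
    (hP.differentiableAt (isOpen_ball.mem_nhds hw)).hasDerivAt
  have h2 := h1.comp w (Complex.hasDerivAt_exp w)
  have h3 := ((hasDerivAt_id w).add_const κ).add h2
  have h4 : (1 : ℂ) + deriv P (Complex.exp w) * Complex.exp w =
      1 + Complex.exp w * deriv P (Complex.exp w) := by ring
  rw [h4] at h3
  exact h3

theorem INC1 (hP1U : P1U_stmt) (hPHI : PHI_stmt) (hPNX : PNX_stmt) (hNH : NH_stmt) :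
    INC1_stmt := by
  intro n k _ c b g ψ R ε δ A G Q hH hQ1 hε
  obtain ⟨P, hPd, hP0, hPb, hPt⟩ := hPHI n k c b g ψ R ε δ A G Q hH hQ1 hε
  obtain ⟨-, -, -, hder, hderk⟩ := hP1U n k c b g ψ R ε δ A G Q hH
  have hmx := hH.su.mx (-(Q : ZMod k))
  have hd1 : deriv (ψ (-(Q : ZMod k))) 0 ≠ 0 := hmx.pn.der
  have hd2 : deriv (G Q) 0 ≠ 0 := hder Q le_rfl
  have hδ := hH.d0
  have hrho : rho n b ≠ 0 := by
    intro h
    have := hH.su.rho1
    rw [h, norm_zero] at this
    linarith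
  -- the constant
  obtain ⟨κ, hκ, hκk⟩ : ∃ κ : ℂ, Complex.exp κ = deriv (G Q) 0 / deriv (ψ (-(Q : ZMod k))) 0 ∧
      (Q = k → κ = -Complex.log (rho n b)) := by
    by_cases hk : Q = k
    · refine ⟨-Complex.log (rho n b), ?_, fun _ => rfl⟩
      have h0 : (-(Q : ZMod k)) = 0 := by
        rw [hk, ZMod.natCast_self, neg_zero]
      have hd0 : deriv (ψ 0) 0 ≠ 0 := by
        rw [← h0]
        exact hd1
      rw [h0, hderk hk, Complex.exp_neg, Complex.exp_log hrho]
      field_simp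
    · exact ⟨Complex.log (deriv (G Q) 0 / deriv (ψ (-(Q : ZMod k))) 0),
        Complex.exp_log (div_ne_zero hd2 hd1), fun h => absurd h hk⟩
  obtain ⟨ψ', hpn, hdψ, hψ⟩ := hPNX n k c b g ψ R ε δ A G Q P κ hH hQ1 hPd hP0 hPb hPt
  set r' : ℝ := Real.exp (κ.re - (A Q + δ / 8) - δ / 32) with hr'
  have hdeq : deriv ψ' 0 = deriv (ψ (-(Q : ZMod k))) 0 := by
    rw [hκ] at hdψ
    have h1 : deriv ψ' 0 * (deriv (G Q) 0 / deriv (ψ (-(Q : ZMod k))) 0) = deriv (G Q) 0 := hdψ
    field_simp at h1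
    exact h1
  have hr1 : r' ≤ 1 := by
    by_contra hcon
    push Not at hcon
    exact hmx.mx r' hcon ψ' hpn hdeq
  have hexp0 : κ.re - (A Q + δ / 8) - δ / 32 ≤ 0 := by
    rw [hr', Real.exp_le_one_iff] at hr1
    exact hr1
  have hEq : EqOn ψ' (ψ (-(Q : ZMod k))) (ball 0 r') := by
    have h1 := (hNH k b g (-(Q : ZMod k)) ψ' r' hpn).2.2.1 (ψ (-(Q : ZMod k))) 1 hmx.pn hdeq
    rw [min_eq_left hr1] at h1
    exact h1
  have hsub : ∀ w ∈ HP (A Q + δ / 4), w ∈ HP (A Q + δ / 8) := by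
    intro w hw
    have h1 : w.re < -(A Q + δ / 4) := hw
    show w.re < -(A Q + δ / 8)
    linarith
  have hΦre : ∀ w ∈ HP (A Q + δ / 4), (w + κ + P (Complex.exp w)).re <
      κ.re - (A Q + δ / 8) - δ / 32 := by
    intro w hw
    have h1 : w.re < -(A Q + δ / 4) := hw
    have h2 := (hPb _ (INC1_exp_mem _ w (hsub w hw))).1
    have h3 := (Complex.abs_re_le_norm (P (Complex.exp w))).trans h2
    have h4 := (abs_le.1 h3).2
    rw [Complex.add_re, Complex.add_re]
    linarith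
  have hmain : ∀ w ∈ HP (A Q + δ / 4),
      ψ (-(Q : ZMod k)) (Complex.exp (w + κ + P (Complex.exp w))) = G Q (Complex.exp w) := by
    intro w hw
    have he : Complex.exp (w + κ + P (Complex.exp w)) =
        Complex.exp w * Complex.exp (κ + P (Complex.exp w)) := by
      rw [← Complex.exp_add, add_assoc]
    have hmem : Complex.exp w * Complex.exp (κ + P (Complex.exp w)) ∈ ball (0 : ℂ) r' := by
      rw [← he, mem_ball_zero_iff, Complex.norm_exp, hr', Real.exp_lt_exp]
      exact hΦre w hw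
    have h1 := hψ _ (INC1_exp_mem _ w (hsub w hw)) hmem
    rw [he, ← hEq hmem, h1]
  refine ⟨fun w => w + κ + P (Complex.exp w), κ, ?_, ?_, ?_, hκk, ?_⟩
  · intro w hw
    exact (INC1_deriv P _ κ w hPd (INC1_exp_mem _ w hw)).differentiableAt.differentiableWithinAt
  · intro w hw
    have hu := INC1_exp_mem _ w hw
    have hd := (INC1_deriv P _ κ w hPd hu).deriv
    refine ⟨?_, ?_, ?_⟩
    · have h1 : w + κ + P (Complex.exp w) - w - κ = P (Complex.exp w) := by ring
      show ‖w + κ + P (Complex.exp w) - w - κ‖ ≤ δ / 32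
      rw [h1]
      exact (hPb _ hu).1
    · rw [hd]
      exact hPt w hw
    · rw [hd, add_sub_cancel_left]
      exact (hPb _ hu).2
  · intro w hw
    exact ⟨(hΦre w hw).trans_le hexp0, hmain w hw⟩
  · rintro _ ⟨u, hu, rfl⟩
    by_cases hu0 : u = 0
    · refine ⟨0, mem_ball_self one_pos, ?_⟩
      rw [hu0, hH.sys.val Q le_rfl]
      exact hmx.pn.val
    · have hw : Complex.log u ∈ HP (A Q + δ / 4) := by
        show (Complex.log u).re < -(A Q + δ / 4)
        rw [Complex.log_re]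
        rw [mem_ball_zero_iff] at hu
        exact (Real.log_lt_iff_lt_exp (norm_pos_iff.2 hu0)).2 hu
      refine ⟨Complex.exp (Complex.log u + κ + P (Complex.exp (Complex.log u))), ?_, ?_⟩
      · rw [mem_ball_zero_iff, Complex.norm_exp]
        exact Real.exp_lt_one_iff.2 ((hΦre _ hw).trans_le hexp0)
      · rw [hmain _ hw, Complex.exp_log hu0]

end MPS

end
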