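import Pool.Agent.helper36.MP.SpecN

set_option autoImplicit false

open Complex Metric Set Filter Topology MeasureTheory

namespace MPS

theorem NFI_left (y r x : ℝ) (hx : 0 ≤ x) (w : ℂ) (hw : w ∈ ball ((y : ℂ) * I) r) :
    w - (x : ℂ) ∈ HP 0 ∪ ball ((y : ℂ) * I) r := by
  by_cases hre : w.re - x < 0
  · left
    show (w - (x : ℂ)).re < -0
    rw [sub_re, ofReal_re, neg_zero]
    exact hre
  · right
    push Not at hre
    rw [mem_ball, dist_eq_norm] at hw ⊢
    have h1 : ‖w - (x : ℂ) - (y : ℂ) * I‖ ^ 2 ≤ ‖w - (y : ℂ) * I‖ ^ 2 := by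
      rw [← normSq_eq_norm_sq, ← normSq_eq_norm_sq, normSq_apply, normSq_apply]
      simp only [sub_re, sub_im, ofReal_re, ofReal_im, mul_re, mul_im, I_re, I_im, mul_zero,
        mul_one, sub_zero, zero_add, add_zero]
      nlinarith
    have h2 : ‖w - (x : ℂ) - (y : ℂ) * I‖ ≤ ‖w - (y : ℂ) * I‖ :=
      le_of_sq_le_sq h1 (norm_nonneg _)
    exact lt_of_le_of_lt h2 hw

theorem NFI (hNU : NU_stmt) (hNI : NI_stmt) : NFI_stmt := by
  intro k _ b g i ψ χ y r hpn hr0 hr1 hnat heq w₁ h₁ w₂ h₂ hw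
  have hopen : IsOpen (HP 0 ∪ ball ((y : ℂ) * I) r) := by
    refine IsOpen.union ?_ isOpen_ball
    exact isOpen_lt continuous_re continuous_const
  obtain ⟨s, hs, hder, -, hpath⟩ := hNU k b g χ χ _ _ w₁ w₂ hopen hopen hnat hnat (Or.inr h₁)
    (Or.inr h₂) hw
  rcases hs with rfl | rfl
  · have hp := hpath (-3) (by
      intro t ht
      have e1 : w₁ + (t : ℂ) * (-3) = w₁ - ((3 * t : ℝ) : ℂ) := by push_cast; ring
      have e2 : w₂ + 1 * ((t : ℂ) * (-3)) = w₂ - ((3 * t : ℝ) : ℂ) := by push_cast; ring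
      rw [e1, e2]
      have ht0 : 0 ≤ 3 * t := mul_nonneg (by norm_num) ht.1
      exact ⟨NFI_left y r _ ht0 w₁ h₁, NFI_left y r _ ht0 w₂ h₂⟩)
    obtain ⟨hp1, -⟩ := hp
    have hre : ∀ w ∈ ball ((y : ℂ) * I) r, (w - 3).re < 0 := by
      intro w hw
      rw [mem_ball, dist_eq_norm] at hw
      have h1 := abs_re_le_norm (w - (y : ℂ) * I)
      have h2 : (w - (y : ℂ) * I).re = w.re := by
        simp
      rw [h2] at h1
      have h3 := le_abs_self w.re
      have h4 : (w - 3).re = w.re - 3 := by simp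
      rw [h4]
      linarith
    have hin : ∀ w ∈ ball ((y : ℂ) * I) r, w + -3 ∈ HP 0 ∧
        Complex.exp (w + -3) ∈ ball (0 : ℂ) 1 := by
      intro w hw
      have h1 := hre w hw
      have h2 : w + -3 = w - 3 := by ring
      rw [h2]
      refine ⟨?_, ?_⟩
      · show (w - 3).re < -0
        rw [neg_zero]
        exact h1
      · rw [mem_ball_zero_iff, Complex.norm_exp]
        exact Real.exp_lt_one_iff.2 h1
    rw [one_mul] at hp1
    rw [heq (hin w₁ h₁).1, heq (hin w₂ h₂).1] at hp1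
    have hinj := hNI k b g i ψ 1 hpn (hin w₁ h₁).2 (hin w₂ h₂).2 hp1
    rw [Complex.exp_eq_exp_iff_exists_int] at hinj
    obtain ⟨n, hn⟩ := hinj
    have hdiff : w₁ - w₂ = n * (2 * Real.pi * I) := by
      have : w₁ - w₂ = (w₁ + -3) - (w₂ + -3) := by ring
      rw [this, hn]
      ring
    have hnorm : ‖w₁ - w₂‖ < 2 := by
      rw [mem_ball] at h₁ h₂
      have h3 := dist_triangle_right w₁ w₂ ((y : ℂ) * I)
      rw [dist_eq_norm] at h3
      linarith
    rw [hdiff] at hnorm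
    have hnn : ‖(n : ℂ) * (2 * Real.pi * I)‖ = |(n : ℝ)| * (2 * Real.pi) := by
      rw [norm_mul, norm_mul, norm_mul, Complex.norm_I, mul_one, Complex.norm_real,
        Complex.norm_intCast, Real.norm_eq_abs, abs_of_pos Real.pi_pos]
      norm_num
    rw [hnn] at hnorm
    have hn0 : n = 0 := by
      by_contra hne
      have h1 : (1 : ℝ) ≤ |(n : ℝ)| := by
        rw [← Int.cast_abs]
        exact_mod_cast Int.one_le_abs hne
      have h2 := Real.pi_gt_three
      nlinarith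
    rw [hn0, Int.cast_zero, zero_mul] at hdiff
    exact sub_eq_zero.1 hdiff
  · exfalso
    have hconv := convex_ball ((y : ℂ) * I) r
    have hp := hpath ((w₂ - w₁) / 2) (by
      intro t ht
      have e1 : w₁ + (t : ℂ) * ((w₂ - w₁) / 2) = ((1 - t / 2 : ℝ)) • w₁ + ((t / 2 : ℝ)) • w₂ := by
        rw [real_smul, real_smul]
        push_cast
        ring
      have e2 : w₂ + (-1) * ((t : ℂ) * ((w₂ - w₁) / 2)) =
          ((t / 2 : ℝ)) • w₁ + ((1 - t / 2 : ℝ)) • w₂ := by
        rw [real_smul, real_smul]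
        push_cast
        ring
      have ht0 := ht.1
      have ht1 := ht.2
      rw [e1, e2]
      exact ⟨Or.inr (hconv h₁ h₂ (by linarith) (by linarith) (by ring)),
        Or.inr (hconv h₁ h₂ (by linarith) (by linarith) (by ring))⟩)
    obtain ⟨-, hp2⟩ := hp
    have em : w₂ + (-1) * ((w₂ - w₁) / 2) = w₁ + (w₂ - w₁) / 2 := by ring
    rw [em] at hp2
    have hm : w₁ + (w₂ - w₁) / 2 ∈ ball ((y : ℂ) * I) r := by
      have e3 : w₁ + (w₂ - w₁) / 2 = ((1 / 2 : ℝ)) • w₁ + ((1 / 2 : ℝ)) • w₂ := by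
        rw [real_smul, real_smul]
        push_cast
        ring
      rw [e3]
      exact hconv h₁ h₂ (by norm_num) (by norm_num) (by norm_num)
    have h0 : deriv χ (w₁ + (w₂ - w₁) / 2) = 0 := by
      have h2 : (2 : ℂ) * deriv χ (w₁ + (w₂ - w₁) / 2) = 0 := by
        linear_combination hp2
      rcases mul_eq_zero.1 h2 with h | h
      · exact absurd h two_ne_zero
      · exact h
    have h1 := hnat.eq _ (Or.inr hm)
    rw [h0] at h1
    norm_num at h1

end MPS
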